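import Pool.Agent.H460TS.Sep

set_option autoImplicit false
set_option linter.unusedVariables false

namespace Pool.Agent.H460TS

open Complex Set Pool.Agent.Helper448.VanKampen Pool.Agent.Helper805.CHS

/-- every arc of a finite family has a point that lies on no other arc -/
theorem exists_base {ι : Type} [Finite ι] {g : ι → ℝ → ℂ} (hg : SFam g) (i : ι) :
    ∃ b ∈ Icc (0:ℝ) 1, ∀ j, j ≠ i → g i b ∉ range (g j) := by
  by_contra hcon
  push Not at hcon
  have h1 : g i '' Icc (0:ℝ) 1 ⊆ ⋃ j : {j : ι // j ≠ i}, (range (g i) ∩ range (g j.1)) := by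
    rintro z ⟨b, hb, rfl⟩
    obtain ⟨j, hj, hz⟩ := hcon b hb
    exact mem_iUnion.2 ⟨⟨j, hj⟩, ⟨b, rfl⟩, hz⟩
  have h2 : (⋃ j : {j : ι // j ≠ i}, (range (g i) ∩ range (g j.1))).Finite :=
    finite_iUnion (fun j => (hg.one i j.1 (Ne.symm j.2)).finite)
  have h3 : (g i '' Icc (0:ℝ) 1).Infinite := (Icc_infinite zero_lt_one).image (hg.inj i)
  exact h3 (h2.subset h1)

/-- the two arcs share a point that lies on no other arc -/
def Simp {ι : Type} (g : ι → ℝ → ℂ) (i j : ι) : Prop :=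
  i ≠ j ∧ ∃ z, z ∈ range (g i) ∧ z ∈ range (g j) ∧ ∀ l, l ≠ i → l ≠ j → z ∉ range (g l)

theorem Simp.symm {ι : Type} {g : ι → ℝ → ℂ} {i j : ι} (h : Simp g i j) : Simp g j i := by
  obtain ⟨h1, z, h2, h3, h4⟩ := h
  exact ⟨h1.symm, z, h3, h2, fun l a b => h4 l b a⟩

def GA {ι : Type} (g : ι → ℝ → ℂ) : SimpleGraph ι where
  Adj := Simp g
  symm := ⟨fun _ _ h => h.symm⟩
  loopless := ⟨fun _ h => h.1 rfl⟩

theorem no_K5_A {ι : Type} [Finite ι] {g : ι → ℝ → ℂ} (hg : SFam g) : ¬ K5Model (GA g) := by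
  classical
  choose β hβ hβ' using fun i => exists_base hg i
  have hz : ∀ i j, ∃ z, Simp g i j → (z ∈ range (g i) ∧ z ∈ range (g j) ∧
      ∀ l, l ≠ i → l ≠ j → z ∉ range (g l)) := by
    intro i j
    by_cases h : Simp g i j
    · obtain ⟨h1, z, h2⟩ := h
      exact ⟨z, fun _ => h2⟩
    · exact ⟨0, fun h' => absurd h' h⟩
  choose z hz using hz
  have hτ : ∀ i z, ∃ t, z ∈ range (g i) → g i t = z := by
    intro i z
    by_cases h : z ∈ range (g i)
    · obtain ⟨t, ht⟩ := h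
      exact ⟨t, fun _ => ht⟩
    · exact ⟨0, fun h' => absurd h' h⟩
  choose τ hτ using hτ
  -- the increments
  let θ : ι → ι → ι → ℂ := fun i j k =>
    inc (fun x => sub (g i) (β i) (τ i (z i j)) x - g k (β k)) +
    inc (fun x => sub (g j) (τ j (z i j)) (β j) x - g k (β k))
  refine no_K5 (GA g) (fun i => g i (β i)) ?_ θ ?_ ?_
  · intro i j hij
    by_contra hne
    exact hβ' i j (Ne.symm hne) ⟨β j, hij.symm⟩
  · intro i j k hij hki hkj
    have hij' : Simp g i j := hij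
    obtain ⟨z1, z2, z3⟩ := hz i j hij'
    have e1 : ∀ (l : ι) (hl : k ≠ l) (a b x : ℝ), sub (g l) a b x ≠ g k (β k) := by
      intro l hl a b x h
      exact hβ' k l (Ne.symm hl) (h ▸ sub_mem _ _ _ _)
    obtain ⟨n1, h1⟩ := sub_inc_mod (hg.cont i) (β i) (τ i (z i j)) _ (e1 i hki _ _)
    obtain ⟨n2, h2⟩ := sub_inc_mod (hg.cont j) (τ j (z i j)) (β j) _ (e1 j hkj _ _)
    refine ⟨n1 + n2, ?_⟩
    simp only [θ]
    rw [h1, h2, hτ i _ z1, hτ j _ z2]
    push_cast; ring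
  · intro i j k l hij hkl hik hil hjk hjl
    have hij' : Simp g i j := hij
    have hkl' : Simp g k l := hkl
    obtain ⟨z1, z2, z3⟩ := hz i j hij'
    obtain ⟨y1, y2, y3⟩ := hz k l hkl'
    have eb : ∀ (u v : ι) (huv : u ≠ v) (a b x : ℝ), sub (g u) a b x ≠ g v (β v) := by
      intro u v huv a b x h
      exact hβ' v u huv (h ▸ sub_mem _ _ _ _)
    have ez : ∀ (u : ι) (h1 : u ≠ i) (h2 : u ≠ j) (a b x : ℝ), sub (g u) a b x ≠ z i j := by
      intro u h1 h2 a b x h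
      exact z3 u h1 h2 (h ▸ sub_mem _ _ _ _)
    have ey : ∀ (u : ι) (h1 : u ≠ k) (h2 : u ≠ l) (a b x : ℝ), sub (g u) a b x ≠ z k l := by
      intro u h1 h2 a b x h
      exact y3 u h1 h2 (h ▸ sub_mem _ _ _ _)
    have ti := hτ i _ z1
    have tj := hτ j _ z2
    have tk := hτ k _ y1
    have tl := hτ l _ y2
    have s1 := sub_sq (hg.cont i) (hg.cont k) (hg.sep i k hik) (β i) (τ i (z i j)) (β k)
      (τ k (z k l)) (eb i k hik _ _) (by rw [tk]; exact ey i hik hil _ _)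
      (eb k i hik.symm _ _) (by rw [ti]; exact ez k hik.symm hjk.symm _ _)
    have s2 := sub_sq (hg.cont i) (hg.cont l) (hg.sep i l hil) (β i) (τ i (z i j))
      (τ l (z k l)) (β l) (by rw [tl]; exact ey i hik hil _ _) (eb i l hil _ _)
      (eb l i hil.symm _ _) (by rw [ti]; exact ez l hil.symm hjl.symm _ _)
    have s3 := sub_sq (hg.cont j) (hg.cont k) (hg.sep j k hjk) (τ j (z i j)) (β j) (β k)
      (τ k (z k l)) (eb j k hjk _ _) (by rw [tk]; exact ey j hjk hjl _ _)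
      (by rw [tj]; exact ez k hik.symm hjk.symm _ _) (eb k j hjk.symm _ _)
    have s4 := sub_sq (hg.cont j) (hg.cont l) (hg.sep j l hjl) (τ j (z i j)) (β j)
      (τ l (z k l)) (β l) (by rw [tl]; exact ey j hjk hjl _ _) (eb j l hjl _ _)
      (by rw [tj]; exact ez l hil.symm hjl.symm _ _) (eb l j hjl.symm _ _)
    rw [ti, tk] at s1
    rw [ti, tl] at s2
    rw [tj, tk] at s3
    rw [tj, tl] at s4
    simp only [θ]
    linear_combination s1 + s2 + s3 + s4

theorem claimA {ι : Type} [Fintype ι] {g : ι → ℝ → ℂ} (hg : SFam g) (E : Finset (ι × ι))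
    (hE : ∀ e ∈ E, Simp g e.1 e.2) : E.card ≤ 14 * Fintype.card ι := by
  refine density (GA g) (no_K5_A hg) (fun i => {i}) ?_ ?_ E ?_
  · intro i
    haveI : Nonempty ({i} : Set ι) := ⟨⟨i, rfl⟩⟩
    haveI : Subsingleton ({i} : Set ι) := by
      constructor
      rintro ⟨a, ha⟩ ⟨b, hb⟩
      rw [mem_singleton_iff] at ha hb
      exact Subtype.ext (ha.trans hb.symm)
    exact ⟨SimpleGraph.Preconnected.of_subsingleton⟩
  · intro i j hij
    exact Set.disjoint_singleton.2 hij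
  · intro e he
    exact ⟨(hE e he).1, e.1, rfl, e.2, rfl, hE e he⟩

theorem claimA' {ι : Type} [Fintype ι] {g : ι → ℝ → ℂ} (hg : SFam g) (S : Finset ι)
    (E : Finset (ι × ι))
    (hE : ∀ e ∈ E, e.1 ∈ S ∧ e.2 ∈ S ∧ e.1 ≠ e.2 ∧ ∃ z, z ∈ range (g e.1) ∧ z ∈ range (g e.2) ∧
      ∀ l ∈ S, l ≠ e.1 → l ≠ e.2 → z ∉ range (g l)) : E.card ≤ 14 * S.card := by
  classical
  have hg' := hg.comp (fun x : S => x.1) Subtype.val_injective
  let E' : Finset (S × S) := Finset.univ.filter (fun e => (e.1.1, e.2.1) ∈ E)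
  have h1 := claimA hg' E' (by
    intro e he
    obtain ⟨a1, a2, a3, z, a4, a5, a6⟩ := hE _ (Finset.mem_filter.1 he).2
    exact ⟨fun h => a3 (by rw [h]), z, a4, a5, fun l h1 h2 =>
      a6 l.1 l.2 (fun h => h1 (Subtype.ext h)) (fun h => h2 (Subtype.ext h))⟩)
  rw [Fintype.card_coe] at h1
  refine le_trans ?_ h1
  have : E ⊆ E'.image (fun e => (e.1.1, e.2.1)) := by
    intro e he
    obtain ⟨a1, a2, -⟩ := hE e he
    exact Finset.mem_image.2 ⟨(⟨e.1, a1⟩, ⟨e.2, a2⟩), Finset.mem_filter.2 ⟨Finset.mem_univ _, he⟩, rfl⟩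
  exact (Finset.card_le_card this).trans Finset.card_image_le

end Pool.Agent.H460TS
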