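import Pool.Agent.H460TS.Count

set_option autoImplicit false
set_option linter.unusedVariables false

namespace Pool.Agent.H460TS

open Complex Set

/-- the constant -/
def C0 : ℕ := 2 * (70 * 70 * (2 ^ 70 * 14))

theorem colour_finset {ι : Type} [Fintype ι] {g : ι → ℝ → ℂ} (hg : SFam g) (k : ℕ)
    (hk : ∀ z, (T g z).card ≤ k) (hpos : 0 < k + C0) : ∀ (m : ℕ) (S : Finset ι), S.card = m →
    ∃ f : ι → Fin (k + C0), ∀ i ∈ S, ∀ j ∈ S, i ≠ j → (range (g i) ∩ range (g j)).Nonempty →
      f i ≠ f j := by
  classical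
  intro m
  induction m with
  | zero =>
    intro S hS
    rw [Finset.card_eq_zero] at hS
    subst hS
    exact ⟨fun _ => ⟨0, hpos⟩, fun i hi => absurd hi (Finset.notMem_empty i)⟩
  | succ m ih =>
    intro S hS
    have hne : S.Nonempty := Finset.card_pos.1 (by omega)
    haveI : Nonempty S := ⟨⟨hne.choose, hne.choose_spec⟩⟩
    have hg' := hg.comp (fun x : S => x.1) Subtype.val_injective
    have hk' : ∀ z, (T (fun x : S => g x.1) z).card ≤ k := by
      intro z
      refine le_trans ?_ (hk z)
      rw [← Finset.card_map (Function.Embedding.subtype (fun x => x ∈ S))]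
      apply Finset.card_le_card
      intro x hx
      obtain ⟨y, hy, rfl⟩ := Finset.mem_map.1 hx
      have hy' : z ∈ range (g y.1) := (mem_T (g := fun x : S => g x.1)).1 hy
      exact mem_T.2 hy'
    obtain ⟨i, hi⟩ := exists_low_degree hg' k hk'
      (fun i => Finset.univ.filter (fun j => j ≠ i ∧ (range (g i.1) ∩ range (g j.1)).Nonempty))
      (fun i j hj => (Finset.mem_filter.1 hj).2)
    obtain ⟨f, hf⟩ := ih (S.erase i.1) (by rw [Finset.card_erase_of_mem i.2]; omega)
    -- a free colour
    set U : Finset S := Finset.univ.filter (fun j => j ≠ i ∧ (range (g i.1) ∩ range (g j.1)).Nonempty)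
    have hlt : (U.image (fun j => f j.1)).card < Fintype.card (Fin (k + C0)) := by
      rw [Fintype.card_fin]
      exact lt_of_le_of_lt Finset.card_image_le hi
    obtain ⟨c, hc⟩ : ∃ c, c ∉ U.image (fun j => f j.1) := by
      by_contra hcon
      push Not at hcon
      have : U.image (fun j => f j.1) = Finset.univ := Finset.eq_univ_iff_forall.2 hcon
      rw [this, Finset.card_univ] at hlt
      exact lt_irrefl _ hlt
    have hc' : ∀ j ∈ S, j ≠ i.1 → (range (g i.1) ∩ range (g j)).Nonempty → f j ≠ c := by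
      intro j hj hji hint he
      apply hc
      refine Finset.mem_image.2 ⟨⟨j, hj⟩, Finset.mem_filter.2 ⟨Finset.mem_univ _, ?_, hint⟩, he⟩
      intro h
      exact hji (congrArg Subtype.val h)
    refine ⟨Function.update f i.1 c, ?_⟩
    intro a ha b hb hab hint
    by_cases hai : a = i.1
    · subst hai
      have hbi : b ≠ i.1 := hab.symm
      rw [Function.update_self, Function.update_of_ne hbi]
      exact (hc' b hb hbi hint).symm
    · by_cases hbi : b = i.1
      · subst hbi
        rw [Function.update_self, Function.update_of_ne hai]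
        exact hc' a ha hai (by rw [inter_comm]; exact hint)
      · rw [Function.update_of_ne hai, Function.update_of_ne hbi]
        exact hf a (Finset.mem_erase.2 ⟨hai, ha⟩) b (Finset.mem_erase.2 ⟨hbi, hb⟩) hab hint

/-- the plane as `ℂ` -/
def toC (p : ℝ × ℝ) : ℂ := ⟨p.1, p.2⟩

theorem toC_inj : Function.Injective toC := by
  intro p q h
  have h1 := congrArg Complex.re h
  have h2 := congrArg Complex.im h
  exact Prod.ext h1 h2

theorem toC_cont : Continuous toC := by
  have : toC = fun p => (Complex.equivRealProdCLM.symm p) := by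
    funext p; apply Complex.ext <;> simp [toC]
  rw [this]
  exact Complex.equivRealProdCLM.symm.continuous

theorem toC_dist (p q : ℝ × ℝ) : ‖toC p - toC q‖ ≤ 2 * dist p q := by
  have h1 : ‖toC p - toC q‖ ≤ |(toC p - toC q).re| + |(toC p - toC q).im| :=
    Complex.norm_le_abs_re_add_abs_im _
  have h2 : |(toC p - toC q).re| ≤ dist p q := by
    rw [Prod.dist_eq]
    simp only [toC, sub_re]
    rw [← Real.dist_eq]
    exact le_max_left _ _
  have h3 : |(toC p - toC q).im| ≤ dist p q := by
    rw [Prod.dist_eq]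
    simp only [toC, sub_im]
    rw [← Real.dist_eq]
    exact le_max_right _ _
  linarith

/-- an arc parametrised by the unit interval, as a function on the line -/
noncomputable def ext (γ : unitInterval → ℝ × ℝ) : ℝ → ℂ := fun t => toC (γ ⟨cl t, cl_mem t⟩)

theorem ext_cont {γ : unitInterval → ℝ × ℝ} (h : Continuous γ) : Continuous (ext γ) :=
  toC_cont.comp (h.comp (continuous_cl.subtype_mk _))

theorem range_ext (γ : unitInterval → ℝ × ℝ) : range (ext γ) = toC '' range γ := by
  ext z
  constructor
  · rintro ⟨t, rfl⟩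
    exact ⟨_, ⟨_, rfl⟩, rfl⟩
  · rintro ⟨p, ⟨t, rfl⟩, rfl⟩
    refine ⟨t.1, ?_⟩
    unfold ext
    congr 2
    exact Subtype.ext (cl_of_mem t.2)

theorem main : ∀ k n : ℕ, ∀ γ : Fin n → (unitInterval → ℝ × ℝ),
      (∀ i, Continuous (γ i) ∧ Function.Injective (γ i)) →
      (∀ i j, i ≠ j → (Set.range (γ i) ∩ Set.range (γ j)).Subsingleton) →
      (∀ i j, i ≠ j → ∀ ε : ℝ, 0 < ε →
        ∃ α β : unitInterval → ℝ × ℝ, Continuous α ∧ Continuous β ∧
          (∀ t, dist (α t) (γ i t) < ε) ∧ (∀ t, dist (β t) (γ j t) < ε) ∧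
          Disjoint (Set.range α) (Set.range β)) →
      (∀ p : ℝ × ℝ, {i : Fin n | p ∈ Set.range (γ i)}.ncard ≤ k) →
      ∃ f : Fin n → Fin (k + C0), ∀ i j, i ≠ j →
        (Set.range (γ i) ∩ Set.range (γ j)).Nonempty → f i ≠ f j := by
  classical
  intro k n γ h1 h2 h3 h4
  have hg : SFam (fun i => ext (γ i)) := by
    refine ⟨fun i => ext_cont (h1 i).1, ?_, ?_, ?_, ?_⟩
    · intro i t
      unfold ext
      congr 2
      exact Subtype.ext (cl_cl t).symm
    · intro i s hs t ht he
      have h5 := (h1 i).2 (toC_inj he)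
      have h6 : cl s = cl t := congrArg Subtype.val h5
      rwa [cl_of_mem hs, cl_of_mem ht] at h6
    · intro i j hij
      rw [range_ext, range_ext, ← image_inter toC_inj]
      exact (h2 i j hij).image _
    · intro i j hij ε hε
      obtain ⟨α, β, hα, hβ, ha, hb, hd⟩ := h3 i j hij (ε / 2) (by positivity)
      refine ⟨ext α, ext β, ext_cont hα, ext_cont hβ, ?_, ?_, ?_⟩
      · intro t
        have h5 := toC_dist (α ⟨cl t, cl_mem t⟩) (γ i ⟨cl t, cl_mem t⟩)
        have h6 := ha ⟨cl t, cl_mem t⟩
        unfold ext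
        linarith
      · intro t
        have h5 := toC_dist (β ⟨cl t, cl_mem t⟩) (γ j ⟨cl t, cl_mem t⟩)
        have h6 := hb ⟨cl t, cl_mem t⟩
        unfold ext
        linarith
      · intro s t he
        exact Set.disjoint_left.1 hd ⟨⟨cl s, cl_mem s⟩, rfl⟩ ⟨⟨cl t, cl_mem t⟩, (toC_inj he).symm⟩
  have hk : ∀ z, (T (fun i => ext (γ i)) z).card ≤ k := by
    intro z
    have h5 := h4 (z.re, z.im)
    refine le_trans (le_of_eq ?_) h5
    rw [← Set.ncard_coe_finset]
    congr 1
    ext i
    simp only [Finset.mem_coe, mem_T, mem_ofPred_eq, range_ext]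
    have hz : toC (z.re, z.im) = z := rfl
    constructor
    · rintro ⟨p, hp, hpz⟩
      have : p = (z.re, z.im) := toC_inj (hpz.trans hz.symm)
      rwa [← this]
    · intro h
      exact ⟨_, h, hz⟩
  have hpos : 0 < k + C0 := by
    have : 0 < C0 := by unfold C0; positivity
    omega
  obtain ⟨f, hf⟩ := colour_finset hg k hk hpos _ Finset.univ rfl
  refine ⟨f, fun i j hij hne => hf i (Finset.mem_univ _) j (Finset.mem_univ _) hij ?_⟩
  rw [range_ext, range_ext, ← image_inter toC_inj]
  exact hne.image _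

end Pool.Agent.H460TS
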