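import Pool.Agent.H460TS.Walks

set_option autoImplicit false

namespace Pool.Agent.H460TS

open Complex Set Pool.Agent.Helper448.VanKampen

/-- the two curves can be pulled apart by arbitrarily small moves -/
def Sep (u v : ℝ → ℂ) : Prop := ∀ ε : ℝ, 0 < ε → ∃ u' v' : ℝ → ℂ, Continuous u' ∧ Continuous v' ∧
  (∀ t, ‖u' t - u t‖ < ε) ∧ (∀ t, ‖v' t - v t‖ < ε) ∧ ∀ s t, u' s ≠ v' t

theorem Sep.comp {u v : ℝ → ℂ} (h : Sep u v) {a b : ℝ → ℝ} (ha : Continuous a)
    (hb : Continuous b) : Sep (fun x => u (a x)) (fun x => v (b x)) := by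
  intro ε hε
  obtain ⟨u', v', h1, h2, h3, h4, h5⟩ := h ε hε
  exact ⟨fun x => u' (a x), fun x => v' (b x), h1.comp ha, h2.comp hb, fun t => h3 _,
    fun t => h4 _, fun s t => h5 _ _⟩

theorem inc_perturb (h h' : ℝ → ℂ) (hc : Continuous h) (hc' : Continuous h')
    (hne : ∀ x, h x ≠ 0) (hlt : ∀ x, ‖h' x - h x‖ < ‖h x‖) :
    inc h' = inc h + (log (h' 1 / h 1) - log (h' 0 / h 0)) := by
  obtain ⟨f, hf, he⟩ := exists_log1 h hc hne
  have hr : ∀ x, 0 < (h' x / h x).re := by
    intro x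
    have h1 : ‖h' x / h x - 1‖ < 1 := by
      have : h' x / h x - 1 = (h' x - h x) / h x := by field_simp [hne x]
      rw [this, norm_div, div_lt_one (norm_pos_iff.mpr (hne x))]
      exact hlt x
    have h2 := (abs_re_le_norm (h' x / h x - 1)).trans_lt h1
    rw [abs_lt] at h2
    simp only [sub_re, one_re] at h2
    linarith [h2.1]
  have hslit : ∀ x, h' x / h x ∈ slitPlane := fun x => Or.inl (hr x)
  have hne' : ∀ x, h' x ≠ 0 := by
    intro x hx
    have := hr x
    rw [hx, zero_div] at this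
    simp at this
  have hg : Continuous (fun x => f x + log (h' x / h x)) := by
    refine hf.add ?_
    exact Continuous.clog (hc'.div hc hne) hslit
  rw [inc_eq h' _ hg (fun x => by
    rw [exp_add, he, exp_log (div_ne_zero (hne' x) (hne x)), mul_div_cancel₀ _ (hne x)]),
    inc_eq h f hf he]
  ring

theorem sq_zero_aux (u v : ℝ → ℂ) (hu : Continuous u) (hv : Continuous v) (δ : ℝ) (hδ : 0 < δ)
    (h1 : ∀ s, δ ≤ ‖u s - v 0‖) (h2 : ∀ s, δ ≤ ‖u s - v 1‖) (h3 : ∀ t, δ ≤ ‖v t - u 0‖)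
    (h4 : ∀ t, δ ≤ ‖v t - u 1‖) (hs : Sep u v) :
    inc (fun s => u s - v 0) - inc (fun s => u s - v 1) + inc (fun t => v t - u 1)
      - inc (fun t => v t - u 0) = 0 := by
  obtain ⟨u', v', hu', hv', c1, c2, hd⟩ := hs (δ / 2) (by positivity)
  have key := inc_square u' v' hu' hv' hd
  have hb : ∀ (a b a' b' : ℂ), ‖a' - a‖ < δ / 2 → ‖b' - b‖ < δ / 2 → δ ≤ ‖a - b‖ →
      ‖(a' - b') - (a - b)‖ < ‖a - b‖ := by
    intro a b a' b' e1 e2 e3
    have : (a' - b') - (a - b) = (a' - a) - (b' - b) := by ring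
    rw [this]
    have := norm_sub_le (a' - a) (b' - b)
    linarith
  have hn : ∀ z : ℂ, δ ≤ ‖z‖ → z ≠ 0 := by
    intro z hz h
    rw [h, norm_zero] at hz
    linarith
  rw [inc_perturb (fun s => u s - v 0) (fun s => u' s - v' 0) (hu.sub continuous_const)
      (hu'.sub continuous_const) (fun s => hn _ (h1 s)) (fun s => hb _ _ _ _ (c1 _) (c2 _) (h1 s)),
    inc_perturb (fun s => u s - v 1) (fun s => u' s - v' 1) (hu.sub continuous_const)
      (hu'.sub continuous_const) (fun s => hn _ (h2 s)) (fun s => hb _ _ _ _ (c1 _) (c2 _) (h2 s)),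
    inc_perturb (fun t => v t - u 1) (fun t => v' t - u' 1) (hv.sub continuous_const)
      (hv'.sub continuous_const) (fun s => hn _ (h4 s)) (fun s => hb _ _ _ _ (c2 _) (c1 _) (h4 s)),
    inc_perturb (fun t => v t - u 0) (fun t => v' t - u' 0) (hv.sub continuous_const)
      (hv'.sub continuous_const) (fun s => hn _ (h3 s)) (fun s => hb _ _ _ _ (c2 _) (c1 _) (h3 s))]
    at key
  have e : ∀ a b c d : ℂ, (b - a) / (d - c) = (a - b) / (c - d) := by
    intro a b c d
    rw [← neg_sub a b, ← neg_sub c d, neg_div_neg_eq]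
  rw [e (u' 1) (v' 1), e (u' 1) (v' 0), e (u' 0) (v' 1), e (u' 0) (v' 0)] at key
  linear_combination key

/-- clamping to the unit interval -/
noncomputable def cl (t : ℝ) : ℝ := max 0 (min 1 t)

theorem cl_mem (t : ℝ) : cl t ∈ Icc (0 : ℝ) 1 := ⟨le_max_left _ _, max_le zero_le_one (min_le_left _ _)⟩
theorem cl_of_mem {t : ℝ} (h : t ∈ Icc (0 : ℝ) 1) : cl t = t := by
  unfold cl; rw [min_eq_right h.2, max_eq_right h.1]
theorem cl_zero : cl 0 = 0 := cl_of_mem ⟨le_rfl, zero_le_one⟩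
theorem cl_one : cl 1 = 1 := cl_of_mem ⟨zero_le_one, le_rfl⟩
theorem cl_cl (t : ℝ) : cl (cl t) = cl t := cl_of_mem (cl_mem t)
theorem continuous_cl : Continuous cl := by unfold cl; fun_prop

theorem exists_gap (u : ℝ → ℂ) (hu : Continuous u) (hcl : ∀ t, u t = u (cl t)) (z : ℂ)
    (h : ∀ s, u s ≠ z) : ∃ δ : ℝ, 0 < δ ∧ ∀ s, δ ≤ ‖u s - z‖ := by
  obtain ⟨s, hs, hmin⟩ := (isCompact_Icc (a := (0:ℝ)) (b := 1)).exists_isMinOn
    ⟨0, by norm_num⟩ ((hu.sub continuous_const).norm.continuousOn (s := Icc (0:ℝ) 1) :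
      ContinuousOn (fun s => ‖u s - z‖) (Icc (0:ℝ) 1))
  refine ⟨‖u s - z‖, norm_pos_iff.mpr (sub_ne_zero.mpr (h s)), fun t => ?_⟩
  rw [hcl t]
  exact hmin (cl_mem t)

/-- two curves that can be pulled apart have vanishing intersection index -/
theorem sq_zero (u v : ℝ → ℂ) (hu : Continuous u) (hv : Continuous v)
    (hcu : ∀ t, u t = u (cl t)) (hcv : ∀ t, v t = v (cl t))
    (h1 : ∀ s, u s ≠ v 0) (h2 : ∀ s, u s ≠ v 1) (h3 : ∀ t, v t ≠ u 0)
    (h4 : ∀ t, v t ≠ u 1) (hs : Sep u v) :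
    inc (fun s => u s - v 0) - inc (fun s => u s - v 1) + inc (fun t => v t - u 1)
      - inc (fun t => v t - u 0) = 0 := by
  obtain ⟨d1, p1, q1⟩ := exists_gap u hu hcu _ h1
  obtain ⟨d2, p2, q2⟩ := exists_gap u hu hcu _ h2
  obtain ⟨d3, p3, q3⟩ := exists_gap v hv hcv _ h3
  obtain ⟨d4, p4, q4⟩ := exists_gap v hv hcv _ h4
  refine sq_zero_aux u v hu hv (min (min d1 d2) (min d3 d4))
    (lt_min (lt_min p1 p2) (lt_min p3 p4)) ?_ ?_ ?_ ?_ hs
  · exact fun s => le_trans ((min_le_left _ _).trans (min_le_left _ _)) (q1 s)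
  · exact fun s => le_trans ((min_le_left _ _).trans (min_le_right _ _)) (q2 s)
  · exact fun s => le_trans ((min_le_right _ _).trans (min_le_left _ _)) (q3 s)
  · exact fun s => le_trans ((min_le_right _ _).trans (min_le_right _ _)) (q4 s)

/-- A family of arcs in the plane, two of which share at most one point and can be pulled apart. -/
structure SFam {ι : Type} (g : ι → ℝ → ℂ) : Prop where
  cont : ∀ i, Continuous (g i)
  clamp : ∀ i t, g i t = g i (cl t)
  inj : ∀ i, InjOn (g i) (Icc 0 1)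
  one : ∀ i j, i ≠ j → (range (g i) ∩ range (g j)).Subsingleton
  sep : ∀ i j, i ≠ j → Sep (g i) (g j)

theorem SFam.comp {ι κ : Type} {g : ι → ℝ → ℂ} (h : SFam g) (e : κ → ι)
    (he : Function.Injective e) : SFam (fun k => g (e k)) :=
  ⟨fun k => h.cont _, fun k => h.clamp _, fun k => h.inj _,
    fun i j hij => h.one _ _ (he.ne hij), fun i j hij => h.sep _ _ (he.ne hij)⟩

/-- sub-arc from parameter `a` to parameter `b` -/
noncomputable def sub (u : ℝ → ℂ) (a b : ℝ) : ℝ → ℂ := fun x => u (a + cl x * (b - a))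

theorem sub_zero (u : ℝ → ℂ) (a b : ℝ) : sub u a b 0 = u a := by simp [sub, cl_zero]
theorem sub_one (u : ℝ → ℂ) (a b : ℝ) : sub u a b 1 = u b := by simp [sub, cl_one]
theorem sub_clamp (u : ℝ → ℂ) (a b x : ℝ) : sub u a b x = sub u a b (cl x) := by simp [sub, cl_cl]
theorem sub_cont {u : ℝ → ℂ} (hu : Continuous u) (a b : ℝ) : Continuous (sub u a b) := by
  unfold sub
  exact hu.comp (continuous_const.add (continuous_cl.mul continuous_const))
theorem sub_mem (u : ℝ → ℂ) (a b x : ℝ) : sub u a b x ∈ range u := ⟨_, rfl⟩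

theorem sub_par (a b x : ℝ) : a + cl x * (b - a) ∈ uIcc a b := by
  have h := cl_mem x
  rw [mem_uIcc]
  rcases le_total a b with hab | hab
  · left
    constructor
    · nlinarith [h.1, sub_nonneg.mpr hab, mul_nonneg h.1 (sub_nonneg.mpr hab)]
    · nlinarith [h.2, sub_nonneg.mpr hab, mul_nonneg (sub_nonneg.mpr h.2) (sub_nonneg.mpr hab)]
  · right
    constructor
    · nlinarith [h.2, sub_nonneg.mpr hab, mul_nonneg (sub_nonneg.mpr h.2) (sub_nonneg.mpr hab)]
    · nlinarith [h.1, sub_nonneg.mpr hab, mul_nonneg h.1 (sub_nonneg.mpr hab)]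

theorem sep_sub {u v : ℝ → ℂ} (h : Sep u v) (a b c d : ℝ) : Sep (sub u a b) (sub v c d) :=
  h.comp (a := fun x => a + cl x * (b - a)) (b := fun x => c + cl x * (d - c))
    (continuous_const.add (continuous_cl.mul continuous_const))
    (continuous_const.add (continuous_cl.mul continuous_const))

theorem sub_inc_mod {u : ℝ → ℂ} (hu : Continuous u) (a b : ℝ) (z : ℂ)
    (h : ∀ x, sub u a b x ≠ z) : ∃ n : ℤ, inc (fun x => sub u a b x - z) =
      log (u b - z) - log (u a - z) + n * (2 * Real.pi * I) := by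
  obtain ⟨n, hn⟩ := inc_mod (fun x => sub u a b x - z) ((sub_cont hu a b).sub continuous_const)
    (fun x => sub_ne_zero.mpr (h x))
  refine ⟨n, ?_⟩
  rw [hn]
  simp only [sub_zero, sub_one]

/-- index relation for sub-arcs of two curves that can be pulled apart -/
theorem sub_sq {u v : ℝ → ℂ} (hu : Continuous u) (hv : Continuous v) (hs : Sep u v)
    (a b c d : ℝ) (h1 : ∀ x, sub u a b x ≠ v c) (h2 : ∀ x, sub u a b x ≠ v d)
    (h3 : ∀ x, sub v c d x ≠ u a) (h4 : ∀ x, sub v c d x ≠ u b) :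
    inc (fun x => sub u a b x - v c) - inc (fun x => sub u a b x - v d)
      + inc (fun x => sub v c d x - u b) - inc (fun x => sub v c d x - u a) = 0 := by
  have := sq_zero (sub u a b) (sub v c d) (sub_cont hu a b) (sub_cont hv c d)
    (sub_clamp u a b) (sub_clamp v c d) (by rw [sub_zero]; exact h1) (by rw [sub_one]; exact h2)
    (by rw [sub_zero]; exact h3) (by rw [sub_one]; exact h4) (sep_sub hs a b c d)
  simpa only [sub_zero, sub_one] using this

end Pool.Agent.H460TS
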