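import Pool.Agent.Helper448.VanKampen

set_option autoImplicit false

namespace Pool.Agent.H460TS

open Complex Set Pool.Agent.Helper448.VanKampen

/-- The van Kampen relations mod 2 (algebraic part). `θ a b c` is the increment of the logarithm of
`z - p c` along a curve from `p a` to `p b`. -/
theorem labels_alg {V : Type*} [LinearOrder V] (p : V → ℂ) (hp : Function.Injective p)
    (θ : V → V → V → ℂ)
    (hn : ∀ a b c, a < b → c ≠ a → c ≠ b → ∃ n : ℤ,
      θ a b c = log (p b - p c) - log (p a - p c) + n * (2 * Real.pi * I)) :
    ∃ m : V → V → V → ZMod 2, ∀ a b c d, a < b → c < d →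
      a ≠ c → a ≠ d → b ≠ c → b ≠ d →
      θ a b c - θ a b d + θ c d b - θ c d a = 0 →
      beta a b c d = m a b c + m a b d + m c d a + m c d b := by
  classical
  have hn' : ∀ a b c, ∃ n : ℤ, a < b → c ≠ a → c ≠ b →
      θ a b c = log (p b - p c) - log (p a - p c) + n * (2 * Real.pi * I) := by
    intro a b c
    by_cases h : a < b ∧ c ≠ a ∧ c ≠ b
    · obtain ⟨n, hn⟩ := hn a b c h.1 h.2.1 h.2.2
      exact ⟨n, fun _ _ _ => hn⟩
    · exact ⟨0, fun h1 h2 h3 => absurd ⟨h1, h2, h3⟩ h⟩
  clear hn
  choose n hn using hn'
  have hB : ∀ x y, ∃ k : ℤ, x ≠ y →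
      log (p x - p y) - log (p y - p x) = (2 * k + 1) * (Real.pi * I) := by
    intro x y
    by_cases h : x = y
    · exact ⟨0, fun h' => absurd h h'⟩
    · obtain ⟨k, hk⟩ := log_sub_log_neg (p x - p y) (sub_ne_zero.mpr (fun h' => h (hp h')))
      refine ⟨k, fun _ => ?_⟩
      rw [← hk]; congr 2; ring
  choose B hB using hB
  -- `D x y` integer with  `2 B + 1 = σ + 2 D`, `σ = 1` if `y < x` and `-1` otherwise
  let D : V → V → ℤ := fun x y => if y < x then B x y else B x y + 1
  have hpiI : (Real.pi * I : ℂ) ≠ 0 := by simp [Real.pi_ne_zero]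
  have hDsymm : ∀ x y, x ≠ y → D y x = - D x y := by
    intro x y hxy
    have e1 := hB x y hxy
    have e2 := hB y x hxy.symm
    have e3 : ((2 * (B x y : ℂ) + 1) + (2 * (B y x : ℂ) + 1)) * (Real.pi * I) = 0 := by
      rw [add_mul, ← e1, ← e2]; ring
    have e4 : (2 * (B x y : ℂ) + 1) + (2 * (B y x : ℂ) + 1) = 0 := by
      rcases mul_eq_zero.mp e3 with h | h
      · exact h
      · exact absurd h hpiI
    have e5 : (2 * (B x y) + 1) + (2 * (B y x) + 1) = 0 := by exact_mod_cast e4
    simp only [D]
    rcases lt_trichotomy x y with h | h | h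
    · rw [if_pos h, if_neg (not_lt.mpr h.le)]; omega
    · exact absurd h hxy
    · rw [if_neg (not_lt.mpr h.le), if_pos h]; omega
  let m : V → V → V → ZMod 2 := fun a b c =>
    ((n a b c + (if a < c then D a c else 0) + (if b < c then D b c else 0) : ℤ) : ZMod 2)
  refine ⟨m, ?_⟩
  intro a b c d hab hcd hac had hbc hbd sq
  rw [hn a b c hab hac.symm hbc.symm, hn a b d hab had.symm hbd.symm,
    hn c d b hcd hbc hbd, hn c d a hcd hac had] at sq
  have b1 := hB b c hbc
  have b2 := hB a c hac
  have b3 := hB b d hbd
  have b4 := hB a d had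
  have e1 : ((B b c : ℂ) - B a c - B b d + B a d + n a b c - n a b d + n c d b - n c d a) *
      (Real.pi * I) = 0 := by
    linear_combination (1/2) * sq - (1/2) * b1 + (1/2) * b2 + (1/2) * b3 - (1/2) * b4
  have e2 : (B b c : ℂ) - B a c - B b d + B a d + n a b c - n a b d + n c d b - n c d a = 0 := by
    rcases mul_eq_zero.mp e1 with h | h
    · exact h
    · exact absurd h hpiI
  have e3 : B b c - B a c - B b d + B a d + n a b c - n a b d + n c d b - n c d a = 0 := by
    exact_mod_cast e2
  -- reduce mod 2
  have d1 := hDsymm a c hac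
  have d2 := hDsymm a d had
  have d3 := hDsymm b c hbc
  have d4 := hDsymm b d hbd
  have goalZ : ∃ k : ℤ, ((if a < c ∧ c < b then 1 else 0) + (if a < d ∧ d < b then 1 else 0) : ℤ) -
      ((n a b c + (if a < c then D a c else 0) + (if b < c then D b c else 0)) +
      (n a b d + (if a < d then D a d else 0) + (if b < d then D b d else 0)) +
      (n c d a + (if c < a then D c a else 0) + (if d < a then D d a else 0)) +
      (n c d b + (if c < b then D c b else 0) + (if d < b then D d b else 0))) = 2 * k := by
    have key : ∀ x y : V, x ≠ y → (if x < y then D x y else 0) + (if y < x then D y x else 0)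
        = D x y - 2 * (if y < x then D x y else 0) := by
      intro x y hxy
      rcases lt_trichotomy x y with h | h | h
      · rw [if_pos h, if_neg (not_lt.mpr h.le), if_neg (not_lt.mpr h.le)]; ring
      · exact absurd h hxy
      · rw [if_neg (not_lt.mpr h.le), if_pos h, if_pos h, hDsymm x y hxy]; ring
    have k1 := key a c hac
    have k2 := key a d had
    have k3 := key b c hbc
    have k4 := key b d hbd
    have Dv : ∀ x y : V, D x y = B x y + (if y < x then 0 else 1) := by
      intro x y; simp only [D]; split_ifs <;> ring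
    have s1 : ((if c < b then 0 else 1) - (if c < a then 0 else 1) : ℤ) =
        - (if a < c ∧ c < b then 1 else 0) := by
      rcases lt_trichotomy a c with h | h | h
      · rcases lt_trichotomy c b with h' | h' | h'
        · simp [h, h', not_lt.mpr h.le]
        · exact absurd h'.symm hbc
        · simp [h, not_lt.mpr h'.le, not_lt.mpr h.le]
      · exact absurd h hac
      · simp [h, not_lt.mpr h.le, h.trans hab]
    have s2 : ((if d < b then 0 else 1) - (if d < a then 0 else 1) : ℤ) =
        - (if a < d ∧ d < b then 1 else 0) := by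
      rcases lt_trichotomy a d with h | h | h
      · rcases lt_trichotomy d b with h' | h' | h'
        · simp [h, h', not_lt.mpr h.le]
        · exact absurd h'.symm hbd
        · simp [h, not_lt.mpr h'.le, not_lt.mpr h.le]
      · exact absurd h had
      · simp [h, not_lt.mpr h.le, h.trans hab]
    have v1 := Dv a c
    have v2 := Dv a d
    have v3 := Dv b c
    have v4 := Dv b d
    generalize (if a < c ∧ c < b then (1:ℤ) else 0) = x1 at *
    generalize (if a < d ∧ d < b then (1:ℤ) else 0) = x2 at *
    generalize (if c < b then (0:ℤ) else 1) = y1 at *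
    generalize (if c < a then (0:ℤ) else 1) = y2 at *
    generalize (if d < b then (0:ℤ) else 1) = y3 at *
    generalize (if d < a then (0:ℤ) else 1) = y4 at *
    generalize (if c < a then D a c else 0) = w1 at *
    generalize (if d < a then D a d else 0) = w2 at *
    generalize (if c < b then D b c else 0) = w3 at *
    generalize (if d < b then D b d else 0) = w4 at *
    generalize (if a < c then D a c else 0) = u1 at *
    generalize (if a < d then D a d else 0) = u2 at *
    generalize (if b < c then D b c else 0) = u3 at *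
    generalize (if b < d then D b d else 0) = u4 at *
    generalize (if c < a then D c a else 0) = t1 at *
    generalize (if d < a then D d a else 0) = t2 at *
    generalize (if c < b then D c b else 0) = t3 at *
    generalize (if d < b then D d b else 0) = t4 at *
    generalize D a c = g1 at *
    generalize D a d = g2 at *
    generalize D b c = g3 at *
    generalize D b d = g4 at *
    generalize D c a = g5 at *
    generalize D d a = g6 at *
    generalize D c b = g7 at *
    generalize D d b = g8 at *
    generalize B a c = f1 at *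
    generalize B a d = f2 at *
    generalize B b c = f3 at *
    generalize B b d = f4 at *
    generalize n a b c = n1 at *
    generalize n a b d = n2 at *
    generalize n c d a = n3 at *
    generalize n c d b = n4 at *
    clear b1 b2 b3 b4 e1 e2 sq
    exact ⟨x1 + x2 - f1 - f4 - n2 - n3 - y2 - y4 + w1 + w2 + w3 + w4, by omega⟩
  obtain ⟨k, hk⟩ := goalZ
  have hz := congrArg (Int.cast : ℤ → ZMod 2) hk
  have h2 : ((2 * k : ℤ) : ZMod 2) = 0 := by
    push_cast
    have : (2 : ZMod 2) = 0 := rfl
    rw [this, zero_mul]
  rw [h2, Int.cast_sub, sub_eq_zero] at hz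
  simp only [m, beta]
  have hl : (((if a < c ∧ c < b then 1 else 0) + (if a < d ∧ d < b then 1 else 0) : ℤ) : ZMod 2)
      = (if a < c ∧ c < b then 1 else 0) + (if a < d ∧ d < b then 1 else 0) := by
    push_cast; rfl
  rw [← hl, hz]
  push_cast
  ring


theorem k5_alg (p : Fin 5 → ℂ) (hp : Function.Injective p) (θ : Fin 5 → Fin 5 → Fin 5 → ℂ)
    (hn : ∀ a b c, a < b → c ≠ a → c ≠ b → ∃ n : ℤ,
      θ a b c = log (p b - p c) - log (p a - p c) + n * (2 * Real.pi * I))
    (hd : ∀ a b c d, a < b → c < d → a ≠ c → a ≠ d → b ≠ c → b ≠ d →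
      θ a b c - θ a b d + θ c d b - θ c d a = 0) : False := by
  obtain ⟨m, hm⟩ := labels_alg p hp θ hn
  have h0 := hm 0 1 2 3 (by decide) (by decide) (by decide) (by decide) (by decide) (by decide) (hd _ _ _ _ (by decide) (by decide) (by decide) (by decide) (by decide) (by decide))
  rw [show beta ((0 : Fin 5)) 1 2 3 = 0 from by decide] at h0
  have h1 := hm 0 2 1 3 (by decide) (by decide) (by decide) (by decide) (by decide) (by decide) (hd _ _ _ _ (by decide) (by decide) (by decide) (by decide) (by decide) (by decide))
  rw [show beta ((0 : Fin 5)) 2 1 3 = 1 from by decide] at h1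
  have h2 := hm 0 3 1 2 (by decide) (by decide) (by decide) (by decide) (by decide) (by decide) (hd _ _ _ _ (by decide) (by decide) (by decide) (by decide) (by decide) (by decide))
  rw [show beta ((0 : Fin 5)) 3 1 2 = 0 from by decide] at h2
  have h3 := hm 0 1 2 4 (by decide) (by decide) (by decide) (by decide) (by decide) (by decide) (hd _ _ _ _ (by decide) (by decide) (by decide) (by decide) (by decide) (by decide))
  rw [show beta ((0 : Fin 5)) 1 2 4 = 0 from by decide] at h3
  have h4 := hm 0 2 1 4 (by decide) (by decide) (by decide) (by decide) (by decide) (by decide) (hd _ _ _ _ (by decide) (by decide) (by decide) (by decide) (by decide) (by decide))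
  rw [show beta ((0 : Fin 5)) 2 1 4 = 1 from by decide] at h4
  have h5 := hm 0 4 1 2 (by decide) (by decide) (by decide) (by decide) (by decide) (by decide) (hd _ _ _ _ (by decide) (by decide) (by decide) (by decide) (by decide) (by decide))
  rw [show beta ((0 : Fin 5)) 4 1 2 = 0 from by decide] at h5
  have h6 := hm 0 1 3 4 (by decide) (by decide) (by decide) (by decide) (by decide) (by decide) (hd _ _ _ _ (by decide) (by decide) (by decide) (by decide) (by decide) (by decide))
  rw [show beta ((0 : Fin 5)) 1 3 4 = 0 from by decide] at h6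
  have h7 := hm 0 3 1 4 (by decide) (by decide) (by decide) (by decide) (by decide) (by decide) (hd _ _ _ _ (by decide) (by decide) (by decide) (by decide) (by decide) (by decide))
  rw [show beta ((0 : Fin 5)) 3 1 4 = 1 from by decide] at h7
  have h8 := hm 0 4 1 3 (by decide) (by decide) (by decide) (by decide) (by decide) (by decide) (hd _ _ _ _ (by decide) (by decide) (by decide) (by decide) (by decide) (by decide))
  rw [show beta ((0 : Fin 5)) 4 1 3 = 0 from by decide] at h8
  have h9 := hm 0 2 3 4 (by decide) (by decide) (by decide) (by decide) (by decide) (by decide) (hd _ _ _ _ (by decide) (by decide) (by decide) (by decide) (by decide) (by decide))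
  rw [show beta ((0 : Fin 5)) 2 3 4 = 0 from by decide] at h9
  have h10 := hm 0 3 2 4 (by decide) (by decide) (by decide) (by decide) (by decide) (by decide) (hd _ _ _ _ (by decide) (by decide) (by decide) (by decide) (by decide) (by decide))
  rw [show beta ((0 : Fin 5)) 3 2 4 = 1 from by decide] at h10
  have h11 := hm 0 4 2 3 (by decide) (by decide) (by decide) (by decide) (by decide) (by decide) (hd _ _ _ _ (by decide) (by decide) (by decide) (by decide) (by decide) (by decide))
  rw [show beta ((0 : Fin 5)) 4 2 3 = 0 from by decide] at h11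
  have h12 := hm 1 2 3 4 (by decide) (by decide) (by decide) (by decide) (by decide) (by decide) (hd _ _ _ _ (by decide) (by decide) (by decide) (by decide) (by decide) (by decide))
  rw [show beta ((1 : Fin 5)) 2 3 4 = 0 from by decide] at h12
  have h13 := hm 1 3 2 4 (by decide) (by decide) (by decide) (by decide) (by decide) (by decide) (hd _ _ _ _ (by decide) (by decide) (by decide) (by decide) (by decide) (by decide))
  rw [show beta ((1 : Fin 5)) 3 2 4 = 1 from by decide] at h13
  have h14 := hm 1 4 2 3 (by decide) (by decide) (by decide) (by decide) (by decide) (by decide) (hd _ _ _ _ (by decide) (by decide) (by decide) (by decide) (by decide) (by decide))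
  rw [show beta ((1 : Fin 5)) 4 2 3 = 0 from by decide] at h14
  have two : (2 : ZMod 2) = 0 := rfl
  have one : (1 : ZMod 2) = 0 := by
    linear_combination h0 + h1 + h2 + h3 + h4 + h5 + h6 + h7 + h8 + h9 + h10 + h11 + h12 + h13 + h14 + ((m 0 1 2 + m 0 1 3 + m 0 1 4 + m 0 2 1 + m 0 2 3 + m 0 2 4 + m 0 3 1 + m 0 3 2 + m 0 3 4 + m 0 4 1 + m 0 4 2 + m 0 4 3 + m 1 2 0 + m 1 2 3 + m 1 2 4 + m 1 3 0 + m 1 3 2 + m 1 3 4 + m 1 4 0 + m 1 4 2 + m 1 4 3 + m 2 3 0 + m 2 3 1 + m 2 3 4 + m 2 4 0 + m 2 4 1 + m 2 4 3 + m 3 4 0 + m 3 4 1 + m 3 4 2) - 2) * two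
  exact one_ne_zero one


end Pool.Agent.H460TS
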