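import Pool.Agent.H460TS.VK
import Pool.Agent.Helper805.CHS.Density

set_option autoImplicit false

namespace Pool.Agent.H460TS

open Complex Set Pool.Agent.Helper805.CHS

section
variable {V : Type} {G : SimpleGraph V} (θ : V → V → V → ℂ)

/-- total increment along a walk -/
def Th : ∀ {a b : V}, G.Walk a b → V → ℂ
  | _, _, .nil => fun _ => 0
  | _, _, @SimpleGraph.Walk.cons _ _ u v _ _ w => fun x => θ u v x + Th w x

@[simp] theorem Th_nil (a x : V) : Th θ (SimpleGraph.Walk.nil : G.Walk a a) x = 0 := rfl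
@[simp] theorem Th_cons {a b c : V} (h : G.Adj a b) (w : G.Walk b c) (x : V) :
    Th θ (SimpleGraph.Walk.cons h w) x = θ a b x + Th θ w x := rfl

theorem Th_mod (p : V → ℂ)
    (hn : ∀ a b c, G.Adj a b → c ≠ a → c ≠ b → ∃ n : ℤ,
      θ a b c = log (p b - p c) - log (p a - p c) + n * (2 * Real.pi * I))
    {a b : V} (w : G.Walk a b) (c : V) (hc : c ∉ w.support) :
    ∃ n : ℤ, Th θ w c = log (p b - p c) - log (p a - p c) + n * (2 * Real.pi * I) := by
  induction w with
  | nil => exact ⟨0, by simp⟩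
  | @cons u v x h w ih =>
    rw [SimpleGraph.Walk.support_cons, List.mem_cons, not_or] at hc
    obtain ⟨n1, h1⟩ := ih hc.2
    have hcv : c ≠ v := fun h => hc.2 (h ▸ w.start_mem_support)
    obtain ⟨n2, h2⟩ := hn u v c h hc.1 hcv
    refine ⟨n1 + n2, ?_⟩
    rw [Th_cons, h1, h2]; push_cast; ring

theorem Th_rel_one
    (hrel : ∀ a b c d, G.Adj a b → G.Adj c d → a ≠ c → a ≠ d → b ≠ c → b ≠ d →
      θ a b c - θ a b d + θ c d b - θ c d a = 0)
    {a b c d : V} (hab : G.Adj a b) (w : G.Walk c d) (ha : a ∉ w.support) (hb : b ∉ w.support) :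
    θ a b c - θ a b d + Th θ w b - Th θ w a = 0 := by
  induction w with
  | nil => simp
  | @cons u v x h w ih =>
    rw [SimpleGraph.Walk.support_cons, List.mem_cons, not_or] at ha hb
    have h1 := ih ha.2 hb.2
    have hav : a ≠ v := fun h => ha.2 (h ▸ w.start_mem_support)
    have hbv : b ≠ v := fun h => hb.2 (h ▸ w.start_mem_support)
    have h2 := hrel a b u v hab h ha.1 hav hb.1 hbv
    rw [Th_cons, Th_cons]
    linear_combination h1 + h2

theorem Th_rel
    (hrel : ∀ a b c d, G.Adj a b → G.Adj c d → a ≠ c → a ≠ d → b ≠ c → b ≠ d →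
      θ a b c - θ a b d + θ c d b - θ c d a = 0)
    {a b c d : V} (w : G.Walk a b) (w' : G.Walk c d) (h : ∀ x ∈ w.support, x ∉ w'.support) :
    Th θ w c - Th θ w d + Th θ w' b - Th θ w' a = 0 := by
  induction w with
  | nil => simp
  | @cons u v x hu w ih =>
    have h1 := ih (fun y hy => h y (by rw [SimpleGraph.Walk.support_cons]; exact List.mem_cons_of_mem _ hy))
    have h2 := Th_rel_one θ hrel hu w' (h u (by simp)) (h v (by simp))
    rw [Th_cons, Th_cons]
    linear_combination h1 + h2

end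

/-- a walk inside a connected set -/
theorem walk_in {V : Type} {G : SimpleGraph V} {A : Set V} (hA : (G.induce A).Connected)
    {x y : V} (hx : x ∈ A) (hy : y ∈ A) : ∃ w : G.Walk x y, ∀ z ∈ w.support, z ∈ A := by
  obtain ⟨w⟩ := hA.preconnected ⟨x, hx⟩ ⟨y, hy⟩
  have key : ∀ {a b : A} (w : (G.induce A).Walk a b),
      ∃ w' : G.Walk a.1 b.1, ∀ z ∈ w'.support, z ∈ A := by
    intro a b w
    induction w with
    | @nil u => exact ⟨.nil, fun z hz => by simp at hz; rw [hz]; exact u.2⟩
    | @cons a b c hab _ ih =>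
      obtain ⟨w', hw'⟩ := ih
      have h1 : G.Adj a.1 b.1 := by simpa using hab
      refine ⟨.cons h1 w', fun z hz => ?_⟩
      rw [SimpleGraph.Walk.support_cons, List.mem_cons] at hz
      rcases hz with rfl | hz
      · exact a.2
      · exact hw' z hz
  exact key w

/-- no `K₅`-model in a graph that has a drawing all of whose independent pairs of edges have
vanishing intersection index -/
theorem no_K5 {V : Type} (G : SimpleGraph V) (p : V → ℂ) (hp : Function.Injective p)
    (θ : V → V → V → ℂ)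
    (hn : ∀ a b c, G.Adj a b → c ≠ a → c ≠ b → ∃ n : ℤ,
      θ a b c = log (p b - p c) - log (p a - p c) + n * (2 * Real.pi * I))
    (hrel : ∀ a b c d, G.Adj a b → G.Adj c d → a ≠ c → a ≠ d → b ≠ c → b ≠ d →
      θ a b c - θ a b d + θ c d b - θ c d a = 0) : ¬ K5Model G := by
  rintro ⟨f, hc, hd, ha⟩
  have hne : ∀ i, ∃ x, x ∈ f i := fun i => nonempty_of_conn (hc i)
  choose x hx using hne
  have hw : ∀ i j, ∃ w : G.Walk (x i) (x j), i ≠ j → ∀ z ∈ w.support, z ∈ f i ∪ f j := by
    intro i j
    by_cases hij : i = j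
    · subst hij; exact ⟨.nil, fun h => absurd rfl h⟩
    · obtain ⟨a, ha, b, hb, hab⟩ := ha i j hij
      obtain ⟨w1, h1⟩ := walk_in (hc i) (hx i) ha
      obtain ⟨w2, h2⟩ := walk_in (hc j) hb (hx j)
      refine ⟨w1.append (.cons hab w2), fun _ z hz => ?_⟩
      rw [SimpleGraph.Walk.mem_support_append_iff] at hz
      rcases hz with hz | hz
      · exact Or.inl (h1 z hz)
      · rw [SimpleGraph.Walk.support_cons, List.mem_cons] at hz
        rcases hz with rfl | hz
        · exact Or.inl ha
        · exact Or.inr (h2 z hz)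
  choose w hw using hw
  have hdd : ∀ i j, i ≠ j → ∀ z ∈ f i, z ∉ f j := fun i j hij z hz hz' =>
    Set.disjoint_left.1 (hd i j hij) hz hz'
  refine k5_alg (fun i => p (x i)) ?_ (fun i j k => Th θ (w i j) (x k)) ?_ ?_
  · intro i j hij
    by_contra hne
    exact hdd i j hne (x i) (hx i) (by rw [hp hij]; exact hx j)
  · intro a b c hab hca hcb
    apply Th_mod θ p hn
    intro h
    rcases hw a b hab.ne _ h with h | h
    · exact hdd c a hca _ (hx c) h
    · exact hdd c b hcb _ (hx c) h
  · intro a b c d hab hcd hac had hbc hbd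
    apply Th_rel θ hrel
    intro z hz hz'
    rcases hw a b hab.ne _ hz with h | h <;> rcases hw c d hcd.ne _ hz' with h' | h'
    · exact hdd a c hac _ h h'
    · exact hdd a d had _ h h'
    · exact hdd b c hbc _ h h'
    · exact hdd b d hbd _ h h'

end Pool.Agent.H460TS
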